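import Mathlib
import Pool.Agent.V11256.DE.D

/-!
# The basin of `√2` for `x_{n+1} = 1/x_{n-k} + 1/x_{n-l}`

The basin is the whole positive orthant iff one of `(k+1)/g`, `(l+1)/g` is even, where
`g = gcd(k+1, l+1)`. Otherwise every positive solution converges to a solution of period `2g`, the
basin meets every orbit of the natural action of `(0,∞)^g` in exactly one point, and membership in
the basin is equivalent to a countable family of explicit rational inequalities, each of which
concerns only `m+1` consecutive terms of the solution.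
-/

namespace Pool.Agent.Results.MP_247194_an.BasinStructure

open Filter Topology Pool.Agent.V11256.DE

/-- The difference equation `x_{n+1} = 1/x_{n-k} + 1/x_{n-l}`, `n = 0,1,2,…`. -/
def IsSolution (k l : ℕ) (x : ℤ → ℝ) : Prop :=
  ∀ n : ℤ, 0 ≤ n → x (n + 1) = 1 / x (n - k) + 1 / x (n - l)

/-- The initial values `(x_{-m}, …, x_0)`, `m = max k l`, are `v`. -/
def Starts (k l : ℕ) (x : ℤ → ℝ) (v : Fin (max k l + 1) → ℝ) : Prop :=
  ∀ i : Fin (max k l + 1), x ((i : ℤ) - (max k l : ℕ)) = v i

/-- The positive initial vectors. -/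
def Positive (k l : ℕ) : Set (Fin (max k l + 1) → ℝ) := {v | ∀ i, 0 < v i}

/-- The basin of the equilibrium `√2`: positive initial vectors whose solution tends to `√2`. -/
def Basin (k l : ℕ) : Set (Fin (max k l + 1) → ℝ) :=
  {v | (∀ i, 0 < v i) ∧ ∀ x : ℤ → ℝ, Starts k l x v → IsSolution k l x →
    Tendsto (fun n : ℕ => x n) atTop (𝓝 (Real.sqrt 2))}

/-- The scaling action: the coordinates of `v` are cut into blocks of length `g`; in the blocks
number `0, 2, 4, …` the coordinate with index `i` is multiplied by `c (i mod g)`, in the blocks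
number `1, 3, 5, …` it is divided by `c (i mod g)`. -/
noncomputable def scale (g : ℕ) (c : ZMod g → ℝ) {N : ℕ} (v : Fin N → ℝ) : Fin N → ℝ :=
  fun i => if Even ((i : ℕ) / g) then v i * c ((i : ℕ) : ZMod g) else v i / c ((i : ℕ) : ZMod g)

/-- The term number `n` of a solution, counted from the initial value `x_{-m}` which has number `0`,
divided by `√2`, and inverted if it lies in a block of length `g = gcd(k+1, l+1)` whose number
`⌊n/g⌋` is odd. -/
noncomputable def twisted (k l : ℕ) (x : ℤ → ℝ) (n : ℕ) : ℝ :=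
  if Even (n / Nat.gcd (k + 1) (l + 1)) then x ((n : ℤ) - (max k l : ℕ)) / Real.sqrt 2
  else Real.sqrt 2 / x ((n : ℤ) - (max k l : ℕ))

/-- In every window of `m + 1` consecutive terms and every residue class modulo
`g = gcd(k+1, l+1)`, some twisted term is `≤ 1` and some twisted term is `≥ 1`. -/
def Balanced (k l : ℕ) (x : ℤ → ℝ) : Prop :=
  ∀ N r : ℕ,
    (∃ n, N ≤ n ∧ n ≤ N + max k l ∧
      n % Nat.gcd (k + 1) (l + 1) = r % Nat.gcd (k + 1) (l + 1) ∧ twisted k l x n ≤ 1) ∧
    (∃ n, N ≤ n ∧ n ≤ N + max k l ∧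
      n % Nat.gcd (k + 1) (l + 1) = r % Nat.gcd (k + 1) (l + 1) ∧ 1 ≤ twisted k l x n)

/-- Extension of a vector by ones. -/
noncomputable def ext {N : ℕ} (v : Fin N → ℝ) (n : ℕ) : ℝ := if h : n < N then v ⟨n, h⟩ else 1

lemma max_succ' (k l : ℕ) : max (k + 1) (l + 1) = max k l + 1 := by omega

lemma rec_of_solution (k l : ℕ) (x : ℤ → ℝ) (h : IsSolution k l x) :
    Rec (k + 1) (l + 1) (fun n : ℕ => x ((n : ℤ) - (max k l : ℕ))) := by
  intro n hn
  have h1 := h ((n : ℤ) - (max k l : ℕ) - 1) (by omega)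
  have e1 : (((n - (k + 1) : ℕ) : ℤ) - (max k l : ℕ)) = (n : ℤ) - (max k l : ℕ) - 1 - k := by
    omega
  have e2 : (((n - (l + 1) : ℕ) : ℤ) - (max k l : ℕ)) = (n : ℤ) - (max k l : ℕ) - 1 - l := by
    omega
  simp only [e1, e2]
  rw [← h1]
  congr 1
  ring

lemma solution_of_rec (k l : ℕ) (X : ℕ → ℝ) (h : Rec (k + 1) (l + 1) X) :
    IsSolution k l (fun j : ℤ => X (j + (max k l : ℕ)).toNat) := by
  intro n hn
  have h1 := h (n + 1 + (max k l : ℕ)).toNat (by omega)
  have e1 : (n + 1 + (max k l : ℕ)).toNat - (k + 1) = (n - k + (max k l : ℕ)).toNat := by omega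
  have e2 : (n + 1 + (max k l : ℕ)).toNat - (l + 1) = (n - l + (max k l : ℕ)).toNat := by omega
  rw [e1, e2] at h1
  exact h1

lemma tendsto_shift (m : ℕ) (X : ℕ → ℝ) (x : ℤ → ℝ) (L : ℝ)
    (h : ∀ n : ℕ, x ((n : ℤ) - m) = X n) :
    Tendsto (fun n : ℕ => x n) atTop (𝓝 L) ↔ Tendsto X atTop (𝓝 L) := by
  rw [← tendsto_add_atTop_iff_nat m]
  constructor
  · intro h1
    have h2 : (fun n : ℕ => X (n + m)) = fun n : ℕ => x n := by
      funext n
      rw [← h (n + m)]
      congr 1
      push_cast
      ring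
    rw [← tendsto_add_atTop_iff_nat m, h2]
    exact (tendsto_add_atTop_iff_nat m).1 h1
  · intro h1
    have h2 : (fun n : ℕ => X (n + m)) = fun n : ℕ => x n := by
      funext n
      rw [← h (n + m)]
      congr 1
      push_cast
      ring
    have h3 := (tendsto_add_atTop_iff_nat m).2 h1
    rw [h2] at h3
    exact (tendsto_add_atTop_iff_nat m).2 h3

lemma ext_pos {N : ℕ} {v : Fin N → ℝ} (hv : ∀ i, 0 < v i) (n : ℕ) : 0 < ext v n := by
  unfold ext
  split_ifs
  · exact hv _
  · exact one_pos

lemma basin_iff (k l : ℕ) (v : Fin (max k l + 1) → ℝ) (hv : ∀ i, 0 < v i) :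
    v ∈ Basin k l ↔ Tendsto (sol (k + 1) (l + 1) (ext v)) atTop (𝓝 (Real.sqrt 2)) := by
  have hrec := sol_rec (k + 1) (l + 1) (Nat.succ_pos _) (Nat.succ_pos _) (ext v)
  constructor
  · rintro ⟨-, h⟩
    have h1 := h (fun j : ℤ => sol (k + 1) (l + 1) (ext v) (j + (max k l : ℕ)).toNat) (by
      intro i
      have e : ((i : ℤ) - (max k l : ℕ) + (max k l : ℕ)).toNat = (i : ℕ) := by omega
      simp only [e]
      rw [sol_init _ _ _ _ (by rw [max_succ']; exact i.2)]
      unfold ext
      rw [dif_pos i.2]) (solution_of_rec k l _ hrec)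
    refine (tendsto_shift (max k l) (sol (k + 1) (l + 1) (ext v))
      (fun j : ℤ => sol (k + 1) (l + 1) (ext v) (j + (max k l : ℕ)).toNat) _ ?_).1 h1
    intro n
    have e : ((n : ℤ) - (max k l : ℕ) + (max k l : ℕ)).toNat = n := by omega
    simp only [e]
  · intro h
    refine ⟨hv, fun x hx hsol => ?_⟩
    refine (tendsto_shift (max k l) _ _ _ ?_).2 h
    intro n
    refine Rec.unique (Nat.succ_pos k) (Nat.succ_pos l) (rec_of_solution k l x hsol) hrec ?_ n
    intro n hn
    rw [sol_init _ _ _ _ hn]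
    rw [max_succ'] at hn
    have := hx ⟨n, hn⟩
    simp only at this
    rw [this]
    unfold ext
    rw [dif_pos hn]

lemma twisted_le (k l : ℕ) (x : ℤ → ℝ) (n : ℕ) (h : 0 < x ((n : ℤ) - (max k l : ℕ))) :
    twisted k l x n ≤ 1 ↔ tau (Nat.gcd (k + 1) (l + 1)) n *
      Real.log (x ((n : ℤ) - (max k l : ℕ)) / Real.sqrt 2) ≤ 0 := by
  have hs : 0 < Real.sqrt 2 := Real.sqrt_pos.2 (by norm_num)
  unfold twisted tau
  by_cases he : Even (n / Nat.gcd (k + 1) (l + 1))
  · rw [if_pos he, if_pos he, one_mul, Real.log_nonpos_iff (by positivity)]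
  · rw [if_neg he, if_neg he, neg_one_mul, neg_nonpos, Real.log_nonneg_iff (by positivity),
      div_le_one h, one_le_div hs]

lemma le_twisted (k l : ℕ) (x : ℤ → ℝ) (n : ℕ) (h : 0 < x ((n : ℤ) - (max k l : ℕ))) :
    1 ≤ twisted k l x n ↔ 0 ≤ tau (Nat.gcd (k + 1) (l + 1)) n *
      Real.log (x ((n : ℤ) - (max k l : ℕ)) / Real.sqrt 2) := by
  have hs : 0 < Real.sqrt 2 := Real.sqrt_pos.2 (by norm_num)
  unfold twisted tau
  by_cases he : Even (n / Nat.gcd (k + 1) (l + 1))
  · rw [if_pos he, if_pos he, one_mul, Real.log_nonneg_iff (by positivity)]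
  · rw [if_neg he, if_neg he, neg_one_mul, neg_nonneg, Real.log_nonpos_iff (by positivity),
      one_le_div h, div_le_one hs]

lemma balanced_iff (k l : ℕ) (hodd : ¬ (Even ((k + 1) / Nat.gcd (k + 1) (l + 1)) ∨
      Even ((l + 1) / Nat.gcd (k + 1) (l + 1)))) (v : Fin (max k l + 1) → ℝ)
    (hv : ∀ i, 0 < v i) (x : ℤ → ℝ) (hx : Starts k l x v) (hsol : IsSolution k l x) :
    Tendsto (fun n : ℕ => x n) atTop (𝓝 (Real.sqrt 2)) ↔ Balanced k l x := by
  rw [not_or, Nat.not_even_iff_odd, Nat.not_even_iff_odd] at hodd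
  obtain ⟨hao, hbo⟩ := hodd
  set X : ℕ → ℝ := fun n : ℕ => x ((n : ℤ) - (max k l : ℕ)) with hX
  have hrec : Rec (k + 1) (l + 1) X := rec_of_solution k l x hsol
  have hpos : ∀ n, 0 < X n := by
    refine hrec.pos (Nat.succ_pos _) (Nat.succ_pos _) ?_
    intro n hn
    rw [max_succ'] at hn
    have := hx ⟨n, hn⟩
    simp only at this
    rw [hX]
    simp only
    rw [this]
    exact hv _
  rw [tendsto_shift (max k l) X x _ (fun n => rfl),
    window_iff (k + 1) (l + 1) (Nat.succ_pos _) (Nat.succ_pos _) hao hbo hpos hrec]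
  unfold Balanced
  refine forall_congr' fun N => forall_congr' fun r => and_congr ?_ ?_
  · refine exists_congr fun n => and_congr Iff.rfl (and_congr ?_ (and_congr Iff.rfl ?_))
    · rw [max_succ']; omega
    · exact (twisted_le k l x n (hpos n)).symm
  · refine exists_congr fun n => and_congr Iff.rfl (and_congr ?_ (and_congr Iff.rfl ?_))
    · rw [max_succ']; omega
    · exact (le_twisted k l x n (hpos n)).symm

/-- **Structure of the basin.** For all `k`, `l`, with `g = gcd(k+1, l+1)`:

* the basin of `√2` is the set of all positive initial vectors iff `(k+1)/g` or `(l+1)/g` is even;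
* if neither is even, then every positive solution converges to a solution of period `2g`: for
  every `j` the sequences `x_{j+2gi}` and `x_{j+g+2gi}` converge to `φ` and `2/φ` for some `φ > 0`;
* if neither is even, then for every positive initial vector `v` there is exactly one positive `c`
  such that the vector `v` scaled by `c` lies in the basin;
* if neither is even, then a positive initial vector lies in the basin iff its solution is balanced:
  every window of `m+1` consecutive terms contains, in every residue class modulo `g`, a twisted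
  term `≤ 1` and a twisted term `≥ 1`. -/
theorem result (k l : ℕ) :
    (Basin k l = Positive k l ↔
      (Even ((k + 1) / Nat.gcd (k + 1) (l + 1)) ∨ Even ((l + 1) / Nat.gcd (k + 1) (l + 1)))) ∧
    (¬ (Even ((k + 1) / Nat.gcd (k + 1) (l + 1)) ∨ Even ((l + 1) / Nat.gcd (k + 1) (l + 1))) →
      (∀ v ∈ Positive k l, ∀ x : ℤ → ℝ, Starts k l x v → IsSolution k l x →
        ∀ j : ℕ, ∃ φ : ℝ, 0 < φ ∧
          Tendsto (fun i : ℕ => x (j + 2 * (Nat.gcd (k + 1) (l + 1) : ℕ) * i)) atTop (𝓝 φ) ∧
          Tendsto (fun i : ℕ => x (j + (Nat.gcd (k + 1) (l + 1) : ℕ) +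
            2 * (Nat.gcd (k + 1) (l + 1) : ℕ) * i)) atTop (𝓝 (2 / φ))) ∧
      (∀ v ∈ Positive k l, ∃! c : ZMod (Nat.gcd (k + 1) (l + 1)) → ℝ,
        (∀ r, 0 < c r) ∧ scale (Nat.gcd (k + 1) (l + 1)) c v ∈ Basin k l) ∧
      (∀ v ∈ Positive k l, v ∈ Basin k l ↔
        ∀ x : ℤ → ℝ, Starts k l x v → IsSolution k l x → Balanced k l x)) := by
  set g := Nat.gcd (k + 1) (l + 1) with hg
  have hgpos : 0 < g := Nat.gcd_pos_of_pos_left _ (Nat.succ_pos k)
  have hs : 0 < Real.sqrt 2 := Real.sqrt_pos.2 (by norm_num)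
  have hs2 : Real.sqrt 2 * Real.sqrt 2 = 2 := Real.mul_self_sqrt (by norm_num)
  -- positivity of solutions
  have hXpos : ∀ v : Fin (max k l + 1) → ℝ, (∀ i, 0 < v i) →
      ∀ n, 0 < sol (k + 1) (l + 1) (ext v) n := by
    intro v hv
    refine (sol_rec (k + 1) (l + 1) (Nat.succ_pos _) (Nat.succ_pos _) (ext v)).pos
      (Nat.succ_pos _) (Nat.succ_pos _) ?_
    intro n hn
    rw [sol_init _ _ _ _ hn]
    exact ext_pos hv n
  -- the scaling statement
  have hscale : ¬ (Even ((k + 1) / g) ∨ Even ((l + 1) / g)) →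
      ∀ v ∈ Positive k l, ∃! c : ZMod g → ℝ, (∀ r, 0 < c r) ∧ scale g c v ∈ Basin k l := by
    intro hodd v hv
    rw [not_or, Nat.not_even_iff_odd, Nat.not_even_iff_odd] at hodd
    obtain ⟨hao, hbo⟩ := hodd
    set X := sol (k + 1) (l + 1) (ext v) with hX
    have hrec : Rec (k + 1) (l + 1) X := sol_rec _ _ (Nat.succ_pos _) (Nat.succ_pos _) _
    have hpos : ∀ n, 0 < X n := hXpos v hv
    have hθex := fun ρ => res_conv (k + 1) (l + 1) (Nat.succ_pos _) (Nat.succ_pos _) hao hbo
      (fun n => Real.log (X n / Real.sqrt 2)) (log_rec hrec hpos) ρ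
    choose θ hθ using hθex
    have hkey : ∀ c : ZMod g → ℝ, (∀ r, 0 < c r) →
        (scale g c v ∈ Basin k l ↔ ∀ z, c z = Real.exp (-θ z.val)) := by
      intro c hc
      have hsv : ∀ i, 0 < scale g c v i := by
        intro i
        unfold scale
        have h1 := hv i
        have h2 := hc ((i : ℕ) : ZMod g)
        split_ifs <;> positivity
      rw [basin_iff k l _ hsv, ← scaled_iff hgpos hpos θ hθ hc]
      have heq : sol (k + 1) (l + 1) (ext (scale g c v)) = scaleN g c X := by
        funext n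
        refine Rec.unique (Nat.succ_pos k) (Nat.succ_pos l)
          (sol_rec _ _ (Nat.succ_pos _) (Nat.succ_pos _) _)
          (scaleN_rec (Nat.succ_pos _) (Nat.succ_pos _) hao hbo hpos hrec hc) ?_ n
        intro n hn
        rw [sol_init _ _ _ _ hn]
        unfold scaleN
        rw [hX, sol_init _ _ _ _ hn]
        rw [max_succ'] at hn
        unfold ext scale
        rw [dif_pos hn, dif_pos hn]
      rw [heq]
    refine ⟨fun z => Real.exp (-θ z.val), ⟨fun z => Real.exp_pos _, ?_⟩, ?_⟩
    · exact (hkey _ (fun z => Real.exp_pos _)).2 (fun z => rfl)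
    · rintro c ⟨hc, hcB⟩
      funext z
      exact (hkey c hc).1 hcB z
  refine ⟨⟨?_, ?_⟩, fun hodd => ⟨?_, hscale hodd, ?_⟩⟩
  · -- everything implies even
    intro hall
    by_contra hodd
    have hone : (fun _ => 1 : Fin (max k l + 1) → ℝ) ∈ Positive k l := fun i => one_pos
    obtain ⟨c, -, huniq⟩ := hscale hodd _ hone
    have h1 := huniq (fun _ => 1) ⟨fun _ => one_pos, by
      rw [hall]
      intro i
      unfold scale
      split_ifs <;> norm_num⟩
    have h2 := huniq (fun _ => 2) ⟨fun _ => two_pos, by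
      rw [hall]
      intro i
      unfold scale
      split_ifs <;> norm_num⟩
    have h3 := congrFun (h1.trans h2.symm) 0
    norm_num at h3
  · -- even implies everything
    intro heven
    ext v
    constructor
    · intro h
      exact h.1
    · intro hv
      rw [basin_iff k l v hv, tendsto_iff_log (hXpos v hv)]
      exact conv (k + 1) (l + 1) (Nat.succ_pos _) (Nat.succ_pos _) heven _
        (log_rec (sol_rec _ _ (Nat.succ_pos _) (Nat.succ_pos _) _) (hXpos v hv))
  · -- convergence to periodic solutions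
    intro v hv x hx hsol j
    rw [not_or, Nat.not_even_iff_odd, Nat.not_even_iff_odd] at hodd
    obtain ⟨hao, hbo⟩ := hodd
    set X : ℕ → ℝ := fun n : ℕ => x ((n : ℤ) - (max k l : ℕ)) with hX
    have hrec : Rec (k + 1) (l + 1) X := rec_of_solution k l x hsol
    have hpos : ∀ n, 0 < X n := by
      refine hrec.pos (Nat.succ_pos _) (Nat.succ_pos _) ?_
      intro n hn
      rw [max_succ'] at hn
      have := hx ⟨n, hn⟩
      simp only at this
      rw [hX]
      simp only
      rw [this]
      exact hv _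
    obtain ⟨θ, hθ⟩ := res_conv (k + 1) (l + 1) (Nat.succ_pos _) (Nat.succ_pos _) hao hbo
      (fun n => Real.log (X n / Real.sqrt 2)) (log_rec hrec hpos) (j + max k l)
    set ρ := j + max k l with hρ
    set t := tau g ρ with ht
    have htt : t * t = 1 := tau_mul_self g ρ
    have hdivE : ∀ i : ℕ, tau g (ρ + g * (2 * i)) = t := by
      intro i
      rw [ht]
      unfold tau
      rw [Nat.add_mul_div_left _ _ hgpos]
      congr 1
      rw [Nat.even_add]
      simp
    have hdivO : ∀ i : ℕ, tau g (ρ + g * (2 * i + 1)) = -t := by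
      intro i
      rw [ht]
      unfold tau
      rw [Nat.add_mul_div_left _ _ hgpos]
      have h1 : ¬ Even (2 * i + 1) := by
        rw [Nat.not_even_iff_odd]
        exact ⟨i, rfl⟩
      have h2 : Even (ρ / g + (2 * i + 1)) ↔ ¬ Even (ρ / g) := by
        rw [Nat.even_add]
        tauto
      by_cases he : Even (ρ / g)
      · rw [if_pos he, if_neg (by rw [h2]; exact fun h => h he)]
      · rw [if_neg he, if_pos (h2.2 he)]
        ring
    have h2i : Tendsto (fun i : ℕ => 2 * i) atTop atTop :=
      tendsto_atTop_mono (f := fun i => i) (fun i => by omega) tendsto_id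
    have h2i1 : Tendsto (fun i : ℕ => 2 * i + 1) atTop atTop :=
      tendsto_atTop_mono (f := fun i => i) (fun i => by omega) tendsto_id
    have hA := hθ.comp h2i
    have hB := hθ.comp h2i1
    refine ⟨Real.exp (t * θ) * Real.sqrt 2, by positivity, ?_, ?_⟩
    · have h1 := (((Real.continuous_exp.tendsto (t * θ)).comp (hA.const_mul t)).mul_const
        (Real.sqrt 2))
      refine h1.congr ?_
      intro i
      simp only [Function.comp_apply]
      rw [hdivE, ← mul_assoc, htt, one_mul]
      have hp := hpos (ρ + g * (2 * i))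
      rw [Real.exp_log (by positivity), div_mul_cancel₀ _ hs.ne', hX]
      simp only
      congr 1
      rw [hρ]
      push_cast
      ring
    · have h1 := (((Real.continuous_exp.tendsto (-t * θ)).comp (hB.const_mul (-t))).mul_const
        (Real.sqrt 2))
      have e : Real.exp (-t * θ) * Real.sqrt 2 = 2 / (Real.exp (t * θ) * Real.sqrt 2) := by
        rw [eq_div_iff (by positivity), neg_mul, Real.exp_neg]
        have := Real.exp_pos (t * θ)
        field_simp
        nlinarith [hs2]
      rw [e] at h1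
      refine h1.congr ?_
      intro i
      simp only [Function.comp_apply]
      rw [hdivO, ← mul_assoc, neg_mul_neg, htt, one_mul]
      have hp := hpos (ρ + g * (2 * i + 1))
      rw [Real.exp_log (by positivity), div_mul_cancel₀ _ hs.ne', hX]
      simp only
      congr 1
      rw [hρ]
      push_cast
      ring
  · -- the criterion
    intro v hv
    constructor
    · intro hB x hx hsol
      exact (balanced_iff k l hodd v hv x hx hsol).1 (hB.2 x hx hsol)
    · intro h
      exact ⟨hv, fun x hx hsol => (balanced_iff k l hodd v hv x hx hsol).2 (h x hx hsol)⟩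

end Pool.Agent.Results.MP_247194_an.BasinStructure
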